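import Mathlib

/-!
# MP_708c97_co: the path vertex cover bound for chordal graphs fails

A 2-tree on 17 vertices (two triangles joined by a strip, with two further short strips hanging at
each triangle) is chordal with clique number 3, but every set meeting all its 5-vertex paths has at
least 6 > 17/3 = (3-1)/(3+5-2) * 17 vertices.
-/

set_option autoImplicit false

namespace Pool.Agent.Results.MP_708c97_co.TwoTreeCounterexample

/-- `G` is chordal: every cycle of length `m ≥ 4` (given as an injective map `c` from the integers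
mod `m` with consecutive vertices adjacent) has a chord, i.e. an edge between two of its vertices
that are not consecutive on the cycle. -/
def IsChordal {V : Type*} (G : SimpleGraph V) : Prop :=
  ∀ (m : ℕ) (c : ZMod m → V), 4 ≤ m → Function.Injective c → (∀ i, G.Adj (c i) (c (i + 1))) →
    ∃ i j : ZMod m, j ≠ i + 1 ∧ i ≠ j + 1 ∧ G.Adj (c i) (c j)

/-- `S` is a `k`-path vertex cover of `G`: every path on `k` vertices (a list of `k` distinct
vertices, consecutive ones adjacent; the path need not be induced) contains a vertex of `S`. -/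
def IsPathCover {V : Type*} (G : SimpleGraph V) (k : ℕ) (S : Finset V) : Prop :=
  ∀ l : List V, l.Nodup → l.IsChain G.Adj → l.length = k → ∃ v ∈ l, v ∈ S

/-- The `k`-path vertex cover number: the least size of a `k`-path vertex cover. -/
noncomputable def pathCoverNum {V : Type*} (G : SimpleGraph V) (k : ℕ) : ℕ :=
  sInf {m : ℕ | ∃ S : Finset V, IsPathCover G k S ∧ S.card = m}

/-! ### The graph -/

/-- The two earlier neighbours of each vertex `v ≥ 3`. -/
def par : ℕ → ℕ × ℕ
  | 0 => (0, 0)
  | 1 => (0, 0)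
  | 2 => (0, 1)
  | 3 => (1, 2)
  | 4 => (2, 3)
  | 5 => (3, 4)
  | 6 => (4, 5)
  | 7 => (5, 6)
  | 8 => (6, 7)
  | 9 => (0, 1)
  | 10 => (1, 9)
  | 11 => (0, 2)
  | 12 => (2, 11)
  | 13 => (6, 8)
  | 14 => (8, 13)
  | 15 => (7, 8)
  | 16 => (8, 15)
  | _ => (0, 0)

/-- `u` is an earlier neighbour of `v`. -/
def low (u v : Fin 17) : Bool := decide (u < v) && (decide (u.1 = (par v.1).1) || decide (u.1 = (par v.1).2))

/-- The graph on 17 vertices. -/
def Gr : SimpleGraph (Fin 17) where
  Adj u v := (low u v || low v u) = true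
  symm := ⟨by intro u v h; simpa [Bool.or_comm] using h⟩
  loopless := ⟨by intro u h; simp [low] at h⟩

instance : DecidableRel Gr.Adj := fun u v => inferInstanceAs (Decidable ((low u v || low v u) = true))

theorem adj_low {u v : Fin 17} (h : Gr.Adj u v) (huv : u < v) : low u v = true := by
  have h' : (low u v || low v u) = true := h
  rcases Bool.or_eq_true_iff.1 h' with h1 | h1
  · exact h1
  · simp only [low, Bool.and_eq_true, decide_eq_true_eq] at h1
    exact absurd h1.1 (not_lt.2 huv.le)

/-- Two distinct earlier neighbours of a vertex are adjacent. -/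
theorem low_clique : ∀ v a b : Fin 17, low a v = true → low b v = true → a ≠ b → Gr.Adj a b := by
  decide +kernel

/-- A vertex has at most two earlier neighbours. -/
theorem low_two : ∀ v a b : Fin 17, low a v = true → low b v = true → a ≠ b →
    ∀ c : Fin 17, low c v = true → c = a ∨ c = b := by
  decide +kernel

theorem chordal : IsChordal Gr := by
  intro m c hm hc hadj
  haveI : NeZero m := ⟨by omega⟩
  haveI : Fintype (ZMod m) := ZMod.fintype m
  obtain ⟨i, -, hi⟩ := Finset.exists_max_image (Finset.univ : Finset (ZMod m)) (fun i => c i)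
    ⟨0, Finset.mem_univ _⟩
  have hcast : ∀ k : ℕ, 0 < k → k < m → ((k : ℕ) : ZMod m) ≠ 0 := by
    intro k hk hkm h0
    have := (ZMod.natCast_eq_zero_iff k m).1 h0
    exact absurd (Nat.le_of_dvd hk this) (by omega)
  have h1 : (1 : ZMod m) ≠ 0 := by simpa using hcast 1 (by norm_num) (by omega)
  have h2 : (2 : ZMod m) ≠ 0 := by simpa using hcast 2 (by norm_num) (by omega)
  have h3 : (3 : ZMod m) ≠ 0 := by simpa using hcast 3 (by norm_num) (by omega)
  have hA : Gr.Adj (c (i - 1)) (c i) := by simpa using hadj (i - 1)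
  have hB : Gr.Adj (c i) (c (i + 1)) := hadj i
  have hlt1 : c (i - 1) < c i :=
    lt_of_le_of_ne (hi _ (Finset.mem_univ _)) hA.ne
  have hlt2 : c (i + 1) < c i :=
    lt_of_le_of_ne (hi _ (Finset.mem_univ _)) hB.ne'
  have hne : c (i - 1) ≠ c (i + 1) := by
    intro h
    have := hc h
    apply h2
    have h4 : (i + 1) - (i - 1) = 0 := by rw [this]; ring
    calc (2 : ZMod m) = (i + 1) - (i - 1) := by ring
      _ = 0 := h4
  refine ⟨i - 1, i + 1, ?_, ?_, low_clique (c i) _ _ (adj_low hA hlt1) (adj_low hB.symm hlt2) hne⟩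
  · intro h
    apply h1
    calc (1 : ZMod m) = (i + 1) - (i - 1 + 1) := by ring
      _ = 0 := by rw [← h]; ring
  · intro h
    apply h3
    calc (3 : ZMod m) = (i + 1 + 1) - (i - 1) := by ring
      _ = 0 := by rw [← h]; ring

theorem cliqueFree : Gr.CliqueFree 4 := by
  intro s hs
  rw [SimpleGraph.isNClique_iff] at hs
  obtain ⟨hcl, hcard⟩ := hs
  have hne : s.Nonempty := by
    rw [← Finset.card_pos]; omega
  obtain ⟨v, hv, hmax⟩ := Finset.exists_max_image s (fun i => i) hne
  have hcard' : 2 < (s.erase v).card := by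
    rw [Finset.card_erase_of_mem hv]; omega
  obtain ⟨a, b, c, ha, hb, hc, hab, hac, hbc⟩ := Finset.two_lt_card_iff.1 hcard'
  have key : ∀ x ∈ s.erase v, low x v = true := by
    intro x hx
    have hx' := Finset.mem_erase.1 hx
    have hadj : Gr.Adj x v := hcl hx'.2 hv hx'.1
    exact adj_low hadj (lt_of_le_of_ne (hmax x hx'.2) hx'.1)
  rcases low_two v a b (key a ha) (key b hb) hab c (key c hc) with h | h
  · exact hac h.symm
  · exact hbc h.symm

theorem cliqueNum_eq : Gr.cliqueNum = 3 := by
  have h3 : Gr.IsNClique 3 ({0, 1, 2} : Finset (Fin 17)) := by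
    rw [SimpleGraph.is3Clique_triple_iff]
    decide
  apply le_antisymm
  · by_contra hlt
    push Not at hlt
    obtain ⟨s, hs⟩ := Gr.exists_isNClique_cliqueNum
    have := cliqueFree.mono (show 4 ≤ Gr.cliqueNum by omega)
    exact this s hs
  · have := h3.isClique.card_le_cliqueNum
    rw [h3.card_eq] at this
    exact this

/-! ### Hitting all 5-vertex paths -/

/-- 21 paths on five vertices. -/
def fam : List (List (Fin 17)) :=
  [[4, 5, 6, 13, 14], [10, 1, 0, 2, 12], [7, 6, 13, 8, 16], [7, 15, 8, 13, 14],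
   [10, 9, 0, 11, 12], [2, 12, 11, 0, 9], [9, 10, 1, 2, 11], [13, 6, 7, 15, 16],
   [7, 15, 16, 8, 14], [5, 3, 2, 11, 12], [5, 3, 1, 9, 10], [3, 2, 0, 9, 10],
   [3, 1, 0, 11, 12], [0, 2, 3, 1, 9], [10, 1, 3, 2, 11], [3, 4, 2, 11, 12],
   [4, 3, 1, 9, 10], [13, 14, 8, 15, 16], [4, 5, 7, 15, 16], [4, 5, 7, 8, 16],
   [4, 5, 6, 8, 15]]

theorem fam_path : ∀ l ∈ fam, l.Nodup ∧ l.IsChain Gr.Adj ∧ l.length = 5 := by
  decide +kernel

/-- No set of at most `b` vertices hits all the lists. -/
def noHit : ℕ → List (List (Fin 17)) → Bool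
  | _, [] => false
  | 0, _ :: _ => true
  | b + 1, p :: ps => p.all (fun v => noHit b ((p :: ps).filter (fun q => !(q.contains v))))

theorem noHit_sound : ∀ (b : ℕ) (L : List (List (Fin 17))), noHit b L = true →
    ∀ S : Finset (Fin 17), S.card ≤ b → ∃ q ∈ L, ∀ v ∈ q, v ∉ S := by
  intro b
  induction b with
  | zero =>
    intro L hL S hS
    match L, hL with
    | [], hL => simp [noHit] at hL
    | p :: ps, _ =>
      refine ⟨p, by simp, ?_⟩
      have : S = ∅ := by simpa using hS
      simp [this]
  | succ b ih =>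
    intro L hL S hS
    match L, hL with
    | [], hL => simp [noHit] at hL
    | p :: ps, hL =>
      by_cases hp : ∀ v ∈ p, v ∉ S
      · exact ⟨p, by simp, hp⟩
      · push Not at hp
        obtain ⟨v, hvp, hvS⟩ := hp
        rw [noHit, List.all_eq_true] at hL
        have h1 := hL v hvp
        have hcard : (S.erase v).card ≤ b := by
          rw [Finset.card_erase_of_mem hvS]; omega
        obtain ⟨q, hq, hqS⟩ := ih _ h1 (S.erase v) hcard
        rw [List.mem_filter] at hq
        refine ⟨q, hq.1, ?_⟩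
        intro w hw hwS
        have hwv : w ≠ v := by
          rintro rfl
          have := hq.2
          simp [hw] at this
        exact hqS w hw (Finset.mem_erase.2 ⟨hwv, hwS⟩)

theorem noHit_fam : noHit 5 fam = true := by
  decide +kernel

theorem lower {S : Finset (Fin 17)} (hS : IsPathCover Gr 5 S) : 6 ≤ S.card := by
  by_contra hlt
  obtain ⟨q, hq, hqS⟩ := noHit_sound 5 fam noHit_fam S (by omega)
  obtain ⟨h1, h2, h3⟩ := fam_path q hq
  obtain ⟨v, hv, hvS⟩ := hS q h1 h2 h3
  exact hqS v hv hvS

/-! ### A cover of size six -/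

/-- The two triangles. -/
def S6 : Finset (Fin 17) := {0, 1, 2, 6, 7, 8}

/-- Labels of the components outside `S6`. -/
def lab : Fin 17 → ℕ := fun v =>
  if v.1 ≤ 5 then 0 else if v.1 ≤ 10 then 1 else if v.1 ≤ 12 then 2 else if v.1 ≤ 14 then 3 else 4

theorem lab_adj : ∀ u v : Fin 17, Gr.Adj u v → u ∉ S6 → v ∉ S6 → lab u = lab v := by
  decide +kernel

theorem lab_card : ∀ u : Fin 17,
    (Finset.univ.filter (fun v : Fin 17 => v ∉ S6 ∧ lab v = lab u)).card ≤ 3 := by
  decide +kernel

theorem cover6 : IsPathCover Gr 5 S6 := by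
  intro l hnd hch hlen
  by_contra hcon
  push Not at hcon
  have hlab : ∀ (l : List (Fin 17)) (u : Fin 17), (u :: l).IsChain Gr.Adj →
      (∀ v ∈ u :: l, v ∉ S6) → ∀ v ∈ u :: l, lab v = lab u := by
    intro l
    induction l with
    | nil => intro u _ _ v hv; simp at hv; rw [hv]
    | cons w l ih =>
      intro u hch hS v hv
      rw [List.isChain_cons_cons] at hch
      have huw : lab u = lab w := lab_adj u w hch.1 (hS u (by simp)) (hS w (by simp))
      rcases List.mem_cons.1 hv with rfl | hv
      · rfl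
      · rw [huw]
        exact ih w hch.2 (fun x hx => hS x (List.mem_cons_of_mem _ hx)) v hv
  match l, hlen with
  | u :: l', hlen =>
    have h1 := hlab l' u hch hcon
    have hsub : (u :: l').toFinset ⊆
        Finset.univ.filter (fun v : Fin 17 => v ∉ S6 ∧ lab v = lab u) := by
      intro v hv
      rw [List.mem_toFinset] at hv
      simp only [Finset.mem_filter, Finset.mem_univ, true_and]
      exact ⟨hcon v hv, h1 v hv⟩
    have h2 := Finset.card_le_card hsub
    rw [List.toFinset_card_of_nodup hnd, hlen] at h2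
    have := lab_card u
    omega

theorem pathCoverNum_eq : pathCoverNum Gr 5 = 6 := by
  have hmem : 6 ∈ {m : ℕ | ∃ S : Finset (Fin 17), IsPathCover Gr 5 S ∧ S.card = m} :=
    ⟨S6, cover6, by decide⟩
  apply le_antisymm
  · exact Nat.sInf_le hmem
  · apply le_csInf ⟨6, hmem⟩
    rintro m ⟨S, hS, rfl⟩
    exact lower hS

/-- **MP_708c97_co, Q1 is false.** There is a chordal graph on 17 vertices with clique number 3 and
5-path vertex cover number 6, whereas the conjectured bound is (3-1)/(3+5-2) * 17 = 17/3 < 6; hence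
the inequality does not hold for all `k ≥ 3` and all finite chordal graphs. -/
theorem result :
    (∃ G : SimpleGraph (Fin 17), IsChordal G ∧ G.cliqueNum = 3 ∧ pathCoverNum G 5 = 6) ∧
    ¬ (∀ k : ℕ, 3 ≤ k → ∀ (V : Type) [Fintype V] (G : SimpleGraph V), IsChordal G →
        (pathCoverNum G k : ℝ) ≤
          ((G.cliqueNum : ℝ) - 1) / ((G.cliqueNum : ℝ) + (k : ℝ) - 2) * (Fintype.card V : ℝ)) := by
  refine ⟨⟨Gr, chordal, cliqueNum_eq, pathCoverNum_eq⟩, ?_⟩
  intro h
  have h1 := h 5 (by norm_num) (Fin 17) Gr chordal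
  rw [cliqueNum_eq, pathCoverNum_eq] at h1
  norm_num at h1

end Pool.Agent.Results.MP_708c97_co.TwoTreeCounterexample
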